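import Pool.Agent.H27R3.DLA.Growth
import Pool.Agent.H27R3.DLA.Proc

set_option autoImplicit false

/-!
MP_cfc8f6_pr, the negation of Q1: there are no constants `g θ₁ θ₂` such that the growth rate of DLA
in the wedge `W_{θ₁,θ₂}` is almost surely `g θ₁ θ₂` for all admissible angles and `g θ₁ θ₂ → 1` as
`θ₂ - θ₁ → 0`.  Indeed DLA exists in every wedge with `-π/2 < θ₁ ≤ 0 ≤ θ₂ < π/2`, and its growth
rate there is almost surely at most `1999/2000`, whatever the angle.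
-/

open MeasureTheory Pool.Agent.H27R3.DLA

theorem Pool.Agent.Results.MP_cfc8f6_pr.NotQ1.result :
    ¬ ∃ g : ℝ → ℝ → ℝ,
      (∀ θ₁ θ₂ : ℝ, -(Real.pi / 2) ≤ θ₁ → θ₁ ≤ 0 → 0 ≤ θ₂ → θ₂ ≤ Real.pi / 2 → θ₁ < θ₂ →
        ∀ (Ω : Type) [MeasurableSpace Ω] (P : Measure Ω) [IsProbabilityMeasure P]
          (a : ℕ → Ω → ℤ × ℤ), IsDLA (wedge θ₁ θ₂) P a →
          ∀ᵐ ω ∂P, gr (fun n => a n ω) = g θ₁ θ₂) ∧
      (∀ ε : ℝ, 0 < ε → ∃ δ : ℝ, 0 < δ ∧ ∀ θ₁ θ₂ : ℝ,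
        -(Real.pi / 2) ≤ θ₁ → θ₁ ≤ 0 → 0 ≤ θ₂ → θ₂ ≤ Real.pi / 2 → θ₁ < θ₂ → θ₂ - θ₁ < δ →
        |g θ₁ θ₂ - 1| < ε) := by
  rintro ⟨g, hg, hlim⟩
  obtain ⟨δ, hδ, h⟩ := hlim (1 / 2000) (by norm_num)
  have hpi := Real.pi_pos
  have hpi3 := Real.pi_gt_three
  set θ : ℝ := min (δ / 2) 1 with hθ
  have hθ0 : 0 < θ := lt_min (by linarith) one_pos
  have hθ1 : θ ≤ 1 := min_le_right _ _
  have hθδ : θ < δ := (min_le_left _ _).trans_lt (by linarith)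
  have hlt : θ < Real.pi / 2 := by linarith
  have h1 : -(Real.pi / 2) < 0 := by linarith
  have hclose := h 0 θ h1.le le_rfl hθ0.le hlt.le hθ0 (by linarith)
  obtain ⟨P, hP, hD⟩ := exists_DLA (Real.tan 0) (Real.tan θ) (by rw [Real.tan_zero])
    (Real.tan_nonneg_of_nonneg_of_le_pi_div_two hθ0.le hlt.le)
  rw [← wedge_eq 0 θ h1 le_rfl hθ0.le hlt] at hD
  have hae1 := hg 0 θ h1.le le_rfl hθ0.le hlt.le hθ0 _ P _ hD
  have hae2 := growth_bound P 0 θ h1 le_rfl hθ0.le hlt hθ0 _ hD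
  obtain ⟨ω, hω1, hω2⟩ := (hae1.and hae2).exists
  rw [hω1] at hω2
  have := (abs_lt.mp hclose).1
  linarith
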